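import Pool.Agent.Helper75_TI.Main

set_option autoImplicit false

/-!
# A lower bound for the number of represented integers in terms of the number of twin primes

If `T(N)` is the number of twin prime pairs up to `N` and `R(N)` the number of `n ≤ N` which have an
admissible decomposition, then `R(N) ≥ c T(N)² (log N)⁴ / (N (log log log N)²)`.
-/

namespace Pool.Agent.Helper75_TI.Old.RepresentedNumbers

open Pool.Agent.Helper75_TI
open scoped Pointwise

/-- `n = k + m` is an admissible decomposition: `k, m >= 1`, `6k-1` and `6k+1` are both prime and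
`p_m + 2` is prime, where `p_m = Nat.nth Nat.Prime (m - 1)` is the `m`-th prime. -/
def Adm (n k m : ℕ) : Prop :=
  0 < k ∧ 0 < m ∧ k + m = n ∧ Nat.Prime (6 * k - 1) ∧ Nat.Prime (6 * k + 1) ∧
    Nat.Prime (Nat.nth Nat.Prime (m - 1) + 2)

/-- There is `c > 0` such that for all large `N` the number `R(N)` of `n <= N` with an admissible
decomposition and the number `T(N)` of twin prime pairs `p, p + 2` with `p <= N` satisfy
`c T(N)² (log N)⁴ <= R(N) N (log log log N)²`. -/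
theorem result : ∃ c : ℝ, 0 < c ∧ ∃ N₀ : ℕ, ∀ N : ℕ, N₀ ≤ N →
    c * ({p : ℕ | p ≤ N ∧ p.Prime ∧ (p + 2).Prime}.ncard : ℝ) ^ 2 * Real.log N ^ 4 ≤
      ({n : ℕ | n ≤ N ∧ ∃ k m : ℕ, Adm n k m}.ncard : ℝ) * N *
        Real.log (Real.log (Real.log N)) ^ 2 := by
  obtain ⟨c, hc, N₀, h⟩ := main
  refine ⟨c, hc, max N₀ 4, fun N hN => ?_⟩
  have h1 := h N (le_trans (le_max_left _ _) hN)
  have hN4 : 4 ≤ N := le_trans (le_max_right _ _) hN
  have hT : {p : ℕ | p ≤ N ∧ p.Prime ∧ (p + 2).Prime}.ncard = (Tw N).card := by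
    rw [← Set.ncard_coe_finset]
    congr 1
    ext p
    unfold Tw
    rw [Finset.mem_coe, Finset.mem_filter, Finset.mem_range]
    constructor
    · rintro ⟨h2, h3⟩; exact ⟨by omega, h3⟩
    · rintro ⟨h2, h3⟩; exact ⟨by omega, h3⟩
  have hfin : {n : ℕ | n ≤ N ∧ ∃ k m : ℕ, Adm n k m}.Finite :=
    (Set.finite_Iic N).subset fun n hn => hn.1
  have hR : (setA N + setB N).card ≤ {n : ℕ | n ≤ N ∧ ∃ k m : ℕ, Adm n k m}.ncard := by
    rw [← Set.ncard_coe_finset]
    apply Set.ncard_le_ncard _ hfin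
    intro n hn
    obtain ⟨k, hk, m, hm, rfl⟩ := Finset.mem_add.1 (Finset.mem_coe.1 hn)
    obtain ⟨hk1, hk2, hk3, hk4⟩ := Finset.mem_filter.1 hk
    obtain ⟨hm1, hm2, hm3⟩ := setB_spec N m hm
    exact ⟨by omega, k, m, hk2, hm1, rfl, hk3.1, hk3.2, hm3⟩
  rw [hT]
  refine h1.trans ?_
  have hR' : ((setA N + setB N).card : ℝ) ≤
      ({n : ℕ | n ≤ N ∧ ∃ k m : ℕ, Adm n k m}.ncard : ℝ) := Nat.cast_le.2 hR
  apply mul_le_mul_of_nonneg_right _ (sq_nonneg _)
  exact mul_le_mul_of_nonneg_right hR' (Nat.cast_nonneg _)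

end Pool.Agent.Helper75_TI.Old.RepresentedNumbers
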